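import Pool.Agent.CUBE.P2
import Pool.Agent.CUBD.Main

/-! Excluded ratios for cuboids of type A (MP_c16a21). -/

set_option autoImplicit false

namespace Pool.Agent.CUBE

open Pool.Agent.CUBD

/-- No positive solutions. -/
theorem no_solutionA (a b : ℤ) (ha0 : 0 < a) (hb0 : 0 < b) (hao : a % 2 = 1)
    (h4b : (4 : ℤ) ∣ b) (h16 : ¬ (16 : ℤ) ∣ b) (hsf : Squarefree (b ^ 2 - a ^ 2))
    (hcrit : CritA a b) :
    ∀ N : ℕ, ∀ s t u v : ℤ, 0 < s → 0 < t → s < N → t ^ 2 + a ^ 2 * s ^ 2 = u ^ 2 →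
      t ^ 2 + b ^ 2 * s ^ 2 = v ^ 2 → False := by
  intro N
  induction N with
  | zero => intro s t u v hs _ hN; simp at hN; omega
  | succ N ih =>
    intro s t u v hs ht hN h1 h2
    obtain ⟨d, hd⟩ : ∃ d : ℤ, d = (Int.gcd s t : ℤ) := ⟨_, rfl⟩
    have hdp : 0 < d := by
      rw [hd]
      have : 0 < Int.gcd s t := Int.gcd_pos_of_ne_zero_left _ hs.ne'
      exact_mod_cast this
    obtain ⟨s1, hs1⟩ : d ∣ s := by rw [hd]; exact Int.gcd_dvd_left s t
    obtain ⟨t1, ht1⟩ : d ∣ t := by rw [hd]; exact Int.gcd_dvd_right s t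
    have hs1p : 0 < s1 := by rw [hs1] at hs; exact (mul_pos_iff_of_pos_left hdp).mp hs
    have ht1p : 0 < t1 := by rw [ht1] at ht; exact (mul_pos_iff_of_pos_left hdp).mp ht
    have hgcd : Int.gcd s1 t1 = 1 := gcd_div hd hs hs1 ht1
    have hd2 : d ^ 2 ≠ 0 := by positivity
    obtain ⟨u1, hu1⟩ : d ∣ u := by
      have : d ^ 2 ∣ u ^ 2 := ⟨t1 ^ 2 + a ^ 2 * s1 ^ 2, by rw [← h1, hs1, ht1]; ring⟩
      exact (Int.pow_dvd_pow_iff (by norm_num)).mp this
    obtain ⟨v1, hv1⟩ : d ∣ v := by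
      have : d ^ 2 ∣ v ^ 2 := ⟨t1 ^ 2 + b ^ 2 * s1 ^ 2, by rw [← h2, hs1, ht1]; ring⟩
      exact (Int.pow_dvd_pow_iff (by norm_num)).mp this
    have h1' : t1 ^ 2 + a ^ 2 * s1 ^ 2 = |u1| ^ 2 := by
      rw [sq_abs]
      apply mul_left_cancel₀ hd2
      rw [hu1, hs1, ht1] at h1
      linear_combination h1
    have h2' : t1 ^ 2 + b ^ 2 * s1 ^ 2 = |v1| ^ 2 := by
      rw [sq_abs]
      apply mul_left_cancel₀ hd2
      rw [hv1, hs1, ht1] at h2
      linear_combination h2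
    have hu0 : 0 < |u1| := by
      rw [abs_pos]; rintro rfl; simp at h1'; nlinarith [sq_nonneg (a * s1), sq_pos_of_pos ht1p]
    have hv0 : 0 < |v1| := by
      rw [abs_pos]; rintro rfl; simp at h2'; nlinarith [sq_nonneg (b * s1), sq_pos_of_pos ht1p]
    obtain ⟨s', t', u', v', k1, k2, k3, k4, k5⟩ := stepA2 a b s1 t1 |u1| |v1| ha0 hb0 hao h4b
      h16 hsf hcrit hs1p ht1p hgcd hu0 hv0 h1' h2'
    have hle : s1 ≤ s := by rw [hs1]; nlinarith
    refine ih s' t' u' v' k1 k3 ?_ k4 k5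
    push_cast at hN
    omega

/-- A cuboid of type A with edges `x 0`, `x 1`, `x 2`: the three face diagonals are integers, the
body diagonal is not. -/
def TypeA (x : Fin 3 → ℕ) : Prop :=
  (∀ i, 0 < x i) ∧ (∀ k, IsSquare (∑ j ∈ Finset.univ.erase k, x j ^ 2)) ∧
    ¬ IsSquare (∑ j, x j ^ 2)

/-- The rational `r` occurs for type A. -/
def OccursA (r : ℚ) : Prop :=
  ∃ x : Fin 3 → ℕ, TypeA x ∧ ∃ i j, i ≠ j ∧ (x i : ℚ) / x j = r

/-- The ratios `a/b`, `b/a` do not occur for type A, and not for type B if `a² + b²` is no square;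
moreover no positive integers `x`, `y`, `z` with `x : y = a : b` have `x² + z²` and `y² + z²` both
squares. -/
def ExcludedA (a b : ℕ) : Prop :=
  ¬ OccursA ((a : ℚ) / b) ∧ ¬ OccursA ((b : ℚ) / a) ∧
    (¬ IsSquare (a ^ 2 + b ^ 2) → ¬ OccursB ((a : ℚ) / b) ∧ ¬ OccursB ((b : ℚ) / a)) ∧
    ∀ x y z : ℕ, 0 < x → 0 < y → 0 < z → b * x = a * y →
      ¬ (IsSquare (x ^ 2 + z ^ 2) ∧ IsSquare (y ^ 2 + z ^ 2))

lemma coprime_of_sfA {a b : ℕ} (hsf : Squarefree ((b : ℤ) ^ 2 - (a : ℤ) ^ 2)) :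
    Nat.Coprime a b := by
  rw [Nat.coprime_iff_gcd_eq_one]
  by_contra hne
  obtain ⟨p, hp, hpd⟩ := Nat.exists_prime_and_dvd hne
  exact sf_common hsf p hp (Int.natCast_dvd_natCast.mpr (hpd.trans (Nat.gcd_dvd_left a b)))
    (Int.natCast_dvd_natCast.mpr (hpd.trans (Nat.gcd_dvd_right a b)))

section

variable (a b : ℕ) (hao : a % 2 = 1) (h4b : 4 ∣ b) (h16 : ¬ 16 ∣ b)
  (hsf : Squarefree ((b : ℤ) ^ 2 - (a : ℤ) ^ 2)) (hcrit : CritA a b)

include hao h4b h16 hsf hcrit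

theorem no_twoA (x y z : ℕ) (hx : 0 < x) (hz : 0 < z) (hxy : b * x = a * y)
    (h1 : IsSquare (x ^ 2 + z ^ 2)) (h2 : IsSquare (y ^ 2 + z ^ 2)) : False := by
  have ha0 : 0 < a := by omega
  have hb0 : 0 < b := by
    rcases Nat.eq_zero_or_pos b with h | h
    · subst h; simp at h16
    · exact h
  have hcop : Nat.Coprime a b := coprime_of_sfA hsf
  obtain ⟨s, hs⟩ : a ∣ x := by
    have : a ∣ b * x := ⟨y, hxy⟩
    exact hcop.dvd_of_dvd_mul_left this
  have hy : y = b * s := by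
    apply Nat.eq_of_mul_eq_mul_left ha0
    rw [← hxy, hs]; ring
  have hs0 : 0 < s := by
    rcases Nat.eq_zero_or_pos s with h | h
    · subst h; omega
    · exact h
  obtain ⟨u, hu⟩ := h1
  obtain ⟨v, hv⟩ := h2
  refine no_solutionA (a : ℤ) (b : ℤ) (by exact_mod_cast ha0)
    (by exact_mod_cast hb0) (by exact_mod_cast hao) (by exact_mod_cast h4b)
    (by exact_mod_cast h16) hsf hcrit (s + 1)
    (s : ℤ) (z : ℤ) (u : ℤ) (v : ℤ) (by exact_mod_cast hs0) (by exact_mod_cast hz)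
    (by push_cast; omega) ?_ ?_
  · have : z ^ 2 + a ^ 2 * s ^ 2 = u ^ 2 := by
      rw [hs] at hu; nlinarith
    exact_mod_cast this
  · have : z ^ 2 + b ^ 2 * s ^ 2 = v ^ 2 := by
      rw [hy] at hv; nlinarith
    exact_mod_cast this

theorem no_ratioA (x : Fin 3 → ℕ) (hpos : ∀ i, 0 < x i) (i j k : Fin 3) (hij : i ≠ j)
    (hik : i ≠ k) (hjk : j ≠ k)
    (hi : IsSquare (∑ l ∈ Finset.univ.erase i, x l ^ 2))
    (hj : IsSquare (∑ l ∈ Finset.univ.erase j, x l ^ 2)) (h : b * x i = a * x j) : False := by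
  rw [erase_eq i k j hik hij hjk.symm, Finset.sum_pair hik] at hj
  rw [erase_eq j k i hjk hij.symm hik.symm, Finset.sum_pair hjk] at hi
  exact no_twoA a b hao h4b h16 hsf hcrit (x i) (x j) (x k) (hpos i) (hpos k) h hj hi

theorem excludedA : ExcludedA a b := by
  have ha : 0 < a := by omega
  have hb : 0 < b := by
    rcases Nat.eq_zero_or_pos b with h | h
    · subst h; simp at h16
    · exact h
  have ha0 : (a : ℚ) ≠ 0 := by positivity
  have hb0 : (b : ℚ) ≠ 0 := by positivity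
  have hcop : Nat.Coprime a b := coprime_of_sfA hsf
  -- from the ratio to the equation
  have conv1 : ∀ x : Fin 3 → ℕ, (∀ i, 0 < x i) → ∀ i j : Fin 3, (x i : ℚ) / x j = (a : ℚ) / b →
      b * x i = a * x j := by
    intro x hx i j h
    have hj : (x j : ℚ) ≠ 0 := by
      have := hx j
      positivity
    rw [div_eq_div_iff hj hb0] at h
    have : (b : ℚ) * x i = a * x j := by linarith
    exact_mod_cast this
  have conv2 : ∀ x : Fin 3 → ℕ, (∀ i, 0 < x i) → ∀ i j : Fin 3, (x i : ℚ) / x j = (b : ℚ) / a →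
      b * x j = a * x i := by
    intro x hx i j h
    have hj : (x j : ℚ) ≠ 0 := by
      have := hx j
      positivity
    rw [div_eq_div_iff hj ha0] at h
    have : (b : ℚ) * x j = a * x i := by linarith
    exact_mod_cast this
  have keyA : ∀ x : Fin 3 → ℕ, TypeA x → ∀ i j : Fin 3, i ≠ j → b * x i = a * x j → False := by
    rintro x ⟨hpos, hsq, _⟩ i j hij h
    obtain ⟨k, hik, hjk⟩ := third i j hij
    exact no_ratioA a b hao h4b h16 hsf hcrit x hpos i j k hij hik hjk (hsq i) (hsq j) h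
  have keyB : ¬ IsSquare (a ^ 2 + b ^ 2) → ∀ x : Fin 3 → ℕ, TypeB x → ∀ i j : Fin 3, i ≠ j →
      b * x i = a * x j → False := by
    rintro hns x ⟨hpos, _, i₀, _, hsq⟩ i j hij h
    obtain ⟨k, hik, hjk⟩ := third i j hij
    have hface : ¬ IsSquare (x i ^ 2 + x j ^ 2) := by
      obtain ⟨s, hs⟩ : a ∣ x i := by
        have : a ∣ b * x i := ⟨x j, h⟩
        exact hcop.dvd_of_dvd_mul_left this
      have hy : x j = b * s := by
        apply Nat.eq_of_mul_eq_mul_left ha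
        rw [← h, hs]; ring
      have hs0 : 0 < s := by
        rcases Nat.eq_zero_or_pos s with h' | h'
        · have := hpos i; rw [hs, h'] at this; simp at this
        · exact h'
      rintro ⟨r, hr⟩
      apply hns
      have he : (a ^ 2 + b ^ 2) * s ^ 2 = r * r := by rw [← hr, hs, hy]; ring
      obtain ⟨q, hq⟩ := (Nat.pow_dvd_pow_iff (n := 2) (by norm_num)).mp
        (⟨a ^ 2 + b ^ 2, by rw [pow_two r, ← he]; ring⟩ : s ^ 2 ∣ r ^ 2)
      refine ⟨q, ?_⟩
      apply Nat.eq_of_mul_eq_mul_left (show 0 < s ^ 2 by positivity)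
      rw [mul_comm, he, hq]; ring
    have hi0 : i₀ = k := by
      by_contra hne
      have := hsq k (Ne.symm hne)
      rw [erase_eq i j k hij hik hjk, Finset.sum_pair hij] at this
      exact hface this
    exact no_ratioA a b hao h4b h16 hsf hcrit x hpos i j k hij hik hjk
      (hsq i (by rw [hi0]; exact hik)) (hsq j (by rw [hi0]; exact hjk)) h
  refine ⟨?_, ?_, ?_, ?_⟩
  · rintro ⟨x, hx, i, j, hij, h⟩
    exact keyA x hx i j hij (conv1 x hx.1 i j h)
  · rintro ⟨x, hx, i, j, hij, h⟩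
    exact keyA x hx j i hij.symm (conv2 x hx.1 i j h)
  · intro hns
    constructor
    · rintro ⟨x, hx, i, j, hij, h⟩
      exact keyB hns x hx i j hij (conv1 x hx.1 i j h)
    · rintro ⟨x, hx, i, j, hij, h⟩
      exact keyB hns x hx j i hij.symm (conv2 x hx.1 i j h)
  · intro x y z hx _ hz hxy hh
    exact no_twoA a b hao h4b h16 hsf hcrit x y z hx hz hxy hh.1 hh.2

end

end Pool.Agent.CUBE
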