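import Pool.Agent.CUBE.A

/-! Examples: eight Pythagorean ratios (MP_c16a21, type A). -/

set_option autoImplicit false

namespace Pool.Agent.CUBE

lemma dvd_cases (n : ℕ) (x : ℤ) (hx : 0 < x) (h : x ∣ (n : ℤ)) (hn : 0 < n) :
    ∃ y ∈ n.divisors, x = (y : ℤ) := by
  obtain ⟨y, rfl⟩ := Int.eq_ofNat_of_zero_le hx.le
  exact ⟨y, Nat.mem_divisors.mpr ⟨Int.natCast_dvd_natCast.mp h, hn.ne'⟩, rfl⟩

lemma crit_5_12 : CritA 5 12 := by
  intro H D l hH hD hl hHa hDb hle c1 c2 c3
  have q1 := c1 5 (by norm_num) (by norm_num)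
  have q2 := c2 3 (by norm_num) (by norm_num) (by norm_num)
  have q3 := c3 17 (by norm_num) (by norm_num) (by norm_num)
  obtain ⟨H', hH', rfl⟩ := dvd_cases 5 H hH (by exact_mod_cast hHa) (by norm_num)
  obtain ⟨D', hD', rfl⟩ := dvd_cases 12 D hD (by exact_mod_cast hDb) (by norm_num)
  have hle' : l ∣ (119 : ℤ) := by
    have h := hle
    norm_num at h
    exact h
  obtain ⟨l', hl', rfl⟩ := dvd_cases 119 l hl (by exact_mod_cast hle') (by norm_num)
  have e1 : Nat.divisors 5 =
      {1, 5} := by decide +kernel
  rw [e1] at hH'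
  have e2 : Nat.divisors 12 =
      {1, 2, 3, 4, 6, 12} := by decide +kernel
  rw [e2] at hD'
  have e3 : Nat.divisors 119 =
      {1, 7, 17, 119} := by decide +kernel
  rw [e3] at hl'
  clear c1 c2 c3 hHa hDb hle hle' hH hD hl
  simp only [Finset.mem_insert, Finset.mem_singleton] at hH' hD' hl'
  rcases hH' with rfl | rfl <;>
    rcases hD' with rfl | rfl | rfl | rfl | rfl | rfl <;>
    rcases hl' with rfl | rfl | rfl | rfl <;>
    first
    | (constructor <;> norm_num; done)
    | (exfalso; revert q1; decide +kernel)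
    | (exfalso; revert q2; decide +kernel)
    | (exfalso; revert q3; decide +kernel)

theorem excluded_5_12 : ExcludedA 5 12 := by
  apply excludedA 5 12 (by norm_num) (by norm_num) (by norm_num)
  · rw [← Int.squarefree_natAbs]
    decide +kernel
  · exact_mod_cast crit_5_12

lemma crit_15_8 : CritA 15 8 := by
  intro H D l hH hD hl hHa hDb hle c1 c2 c3
  have q1 := c1 3 (by norm_num) (by norm_num)
  have q2 := c1 5 (by norm_num) (by norm_num)
  obtain ⟨H', hH', rfl⟩ := dvd_cases 15 H hH (by exact_mod_cast hHa) (by norm_num)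
  obtain ⟨D', hD', rfl⟩ := dvd_cases 8 D hD (by exact_mod_cast hDb) (by norm_num)
  have hle' : l ∣ (161 : ℤ) := by
    have h := hle
    norm_num at h
    exact h
  obtain ⟨l', hl', rfl⟩ := dvd_cases 161 l hl (by exact_mod_cast hle') (by norm_num)
  have e1 : Nat.divisors 15 =
      {1, 3, 5, 15} := by decide +kernel
  rw [e1] at hH'
  have e2 : Nat.divisors 8 =
      {1, 2, 4, 8} := by decide +kernel
  rw [e2] at hD'
  have e3 : Nat.divisors 161 =
      {1, 7, 23, 161} := by decide +kernel
  rw [e3] at hl'
  clear c1 c2 c3 hHa hDb hle hle' hH hD hl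
  simp only [Finset.mem_insert, Finset.mem_singleton] at hH' hD' hl'
  rcases hH' with rfl | rfl | rfl | rfl <;>
    rcases hD' with rfl | rfl | rfl | rfl <;>
    rcases hl' with rfl | rfl | rfl | rfl <;>
    first
    | (constructor <;> norm_num; done)
    | (exfalso; revert q1; decide +kernel)
    | (exfalso; revert q2; decide +kernel)

theorem excluded_15_8 : ExcludedA 15 8 := by
  apply excludedA 15 8 (by norm_num) (by norm_num) (by norm_num)
  · rw [← Int.squarefree_natAbs]
    decide +kernel
  · exact_mod_cast crit_15_8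

lemma crit_35_12 : CritA 35 12 := by
  intro H D l hH hD hl hHa hDb hle c1 c2 c3
  have q1 := c1 5 (by norm_num) (by norm_num)
  have q2 := c1 7 (by norm_num) (by norm_num)
  have q3 := c2 3 (by norm_num) (by norm_num) (by norm_num)
  obtain ⟨H', hH', rfl⟩ := dvd_cases 35 H hH (by exact_mod_cast hHa) (by norm_num)
  obtain ⟨D', hD', rfl⟩ := dvd_cases 12 D hD (by exact_mod_cast hDb) (by norm_num)
  have hle' : l ∣ (1081 : ℤ) := by
    have h := hle
    norm_num at h
    exact h
  obtain ⟨l', hl', rfl⟩ := dvd_cases 1081 l hl (by exact_mod_cast hle') (by norm_num)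
  have e1 : Nat.divisors 35 =
      {1, 5, 7, 35} := by decide +kernel
  rw [e1] at hH'
  have e2 : Nat.divisors 12 =
      {1, 2, 3, 4, 6, 12} := by decide +kernel
  rw [e2] at hD'
  have e3 : Nat.divisors 1081 =
      {1, 23, 47, 1081} := by decide +kernel
  rw [e3] at hl'
  clear c1 c2 c3 hHa hDb hle hle' hH hD hl
  simp only [Finset.mem_insert, Finset.mem_singleton] at hH' hD' hl'
  rcases hH' with rfl | rfl | rfl | rfl <;>
    rcases hD' with rfl | rfl | rfl | rfl | rfl | rfl <;>
    rcases hl' with rfl | rfl | rfl | rfl <;>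
    first
    | (constructor <;> norm_num; done)
    | (exfalso; revert q1; decide +kernel)
    | (exfalso; revert q2; decide +kernel)
    | (exfalso; revert q3; decide +kernel)

theorem excluded_35_12 : ExcludedA 35 12 := by
  apply excludedA 35 12 (by norm_num) (by norm_num) (by norm_num)
  · rw [← Int.squarefree_natAbs]
    decide +kernel
  · exact_mod_cast crit_35_12

lemma crit_33_56 : CritA 33 56 := by
  intro H D l hH hD hl hHa hDb hle c1 c2 c3
  have q1 := c1 3 (by norm_num) (by norm_num)
  have q2 := c1 11 (by norm_num) (by norm_num)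
  have q3 := c2 7 (by norm_num) (by norm_num) (by norm_num)
  have q4 := c3 89 (by norm_num) (by norm_num) (by norm_num)
  obtain ⟨H', hH', rfl⟩ := dvd_cases 33 H hH (by exact_mod_cast hHa) (by norm_num)
  obtain ⟨D', hD', rfl⟩ := dvd_cases 56 D hD (by exact_mod_cast hDb) (by norm_num)
  have hle' : l ∣ (2047 : ℤ) := by
    have h := hle
    norm_num at h
    exact h
  obtain ⟨l', hl', rfl⟩ := dvd_cases 2047 l hl (by exact_mod_cast hle') (by norm_num)
  have e1 : Nat.divisors 33 =
      {1, 3, 11, 33} := by decide +kernel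
  rw [e1] at hH'
  have e2 : Nat.divisors 56 =
      {1, 2, 4, 7, 8, 14, 28, 56} := by decide +kernel
  rw [e2] at hD'
  have e3 : Nat.divisors 2047 =
      {1, 23, 89, 2047} := by decide +kernel
  rw [e3] at hl'
  clear c1 c2 c3 hHa hDb hle hle' hH hD hl
  simp only [Finset.mem_insert, Finset.mem_singleton] at hH' hD' hl'
  rcases hH' with rfl | rfl | rfl | rfl <;>
    rcases hD' with rfl | rfl | rfl | rfl | rfl | rfl | rfl | rfl <;>
    rcases hl' with rfl | rfl | rfl | rfl <;>
    first
    | (constructor <;> norm_num; done)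
    | (exfalso; revert q1; decide +kernel)
    | (exfalso; revert q2; decide +kernel)
    | (exfalso; revert q3; decide +kernel)
    | (exfalso; revert q4; decide +kernel)

theorem excluded_33_56 : ExcludedA 33 56 := by
  apply excludedA 33 56 (by norm_num) (by norm_num) (by norm_num)
  · rw [← Int.squarefree_natAbs]
    decide +kernel
  · exact_mod_cast crit_33_56

lemma crit_21_220 : CritA 21 220 := by
  intro H D l hH hD hl hHa hDb hle c1 c2 c3
  have q1 := c1 3 (by norm_num) (by norm_num)
  have q2 := c1 7 (by norm_num) (by norm_num)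
  have q3 := c2 5 (by norm_num) (by norm_num) (by norm_num)
  have q4 := c2 11 (by norm_num) (by norm_num) (by norm_num)
  have q5 := c3 241 (by norm_num) (by norm_num) (by norm_num)
  obtain ⟨H', hH', rfl⟩ := dvd_cases 21 H hH (by exact_mod_cast hHa) (by norm_num)
  obtain ⟨D', hD', rfl⟩ := dvd_cases 220 D hD (by exact_mod_cast hDb) (by norm_num)
  have hle' : l ∣ (47959 : ℤ) := by
    have h := hle
    norm_num at h
    exact h
  obtain ⟨l', hl', rfl⟩ := dvd_cases 47959 l hl (by exact_mod_cast hle') (by norm_num)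
  have e1 : Nat.divisors 21 =
      {1, 3, 7, 21} := by decide +kernel
  rw [e1] at hH'
  have e2 : Nat.divisors 220 =
      {1, 2, 4, 5, 10, 11, 20, 22, 44, 55, 110, 220} := by decide +kernel
  rw [e2] at hD'
  have e3 : Nat.divisors 47959 =
      {1, 199, 241, 47959} := by decide +kernel
  rw [e3] at hl'
  clear c1 c2 c3 hHa hDb hle hle' hH hD hl
  simp only [Finset.mem_insert, Finset.mem_singleton] at hH' hD' hl'
  rcases hH' with rfl | rfl | rfl | rfl <;>
    rcases hD' with rfl | rfl | rfl | rfl | rfl | rfl | rfl | rfl | rfl | rfl | rfl | rfl <;>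
    rcases hl' with rfl | rfl | rfl | rfl <;>
    first
    | (constructor <;> norm_num; done)
    | (exfalso; revert q1; decide +kernel)
    | (exfalso; revert q2; decide +kernel)
    | (exfalso; revert q3; decide +kernel)
    | (exfalso; revert q4; decide +kernel)
    | (exfalso; revert q5; decide +kernel)

theorem excluded_21_220 : ExcludedA 21 220 := by
  apply excludedA 21 220 (by norm_num) (by norm_num) (by norm_num)
  · rw [← Int.squarefree_natAbs]
    decide +kernel
  · exact_mod_cast crit_21_220

lemma crit_51_140 : CritA 51 140 := by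
  intro H D l hH hD hl hHa hDb hle c1 c2 c3
  have q1 := c1 3 (by norm_num) (by norm_num)
  have q2 := c1 17 (by norm_num) (by norm_num)
  have q3 := c2 5 (by norm_num) (by norm_num) (by norm_num)
  have q4 := c2 7 (by norm_num) (by norm_num) (by norm_num)
  have q5 := c3 89 (by norm_num) (by norm_num) (by norm_num)
  obtain ⟨H', hH', rfl⟩ := dvd_cases 51 H hH (by exact_mod_cast hHa) (by norm_num)
  obtain ⟨D', hD', rfl⟩ := dvd_cases 140 D hD (by exact_mod_cast hDb) (by norm_num)
  have hle' : l ∣ (16999 : ℤ) := by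
    have h := hle
    norm_num at h
    exact h
  obtain ⟨l', hl', rfl⟩ := dvd_cases 16999 l hl (by exact_mod_cast hle') (by norm_num)
  have e1 : Nat.divisors 51 =
      {1, 3, 17, 51} := by decide +kernel
  rw [e1] at hH'
  have e2 : Nat.divisors 140 =
      {1, 2, 4, 5, 7, 10, 14, 20, 28, 35, 70, 140} := by decide +kernel
  rw [e2] at hD'
  have e3 : Nat.divisors 16999 =
      {1, 89, 191, 16999} := by decide +kernel
  rw [e3] at hl'
  clear c1 c2 c3 hHa hDb hle hle' hH hD hl
  simp only [Finset.mem_insert, Finset.mem_singleton] at hH' hD' hl'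
  rcases hH' with rfl | rfl | rfl | rfl <;>
    rcases hD' with rfl | rfl | rfl | rfl | rfl | rfl | rfl | rfl | rfl | rfl | rfl | rfl <;>
    rcases hl' with rfl | rfl | rfl | rfl <;>
    first
    | (constructor <;> norm_num; done)
    | (exfalso; revert q1; decide +kernel)
    | (exfalso; revert q2; decide +kernel)
    | (exfalso; revert q3; decide +kernel)
    | (exfalso; revert q4; decide +kernel)
    | (exfalso; revert q5; decide +kernel)

theorem excluded_51_140 : ExcludedA 51 140 := by
  apply excludedA 51 140 (by norm_num) (by norm_num) (by norm_num)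
  · rw [← Int.squarefree_natAbs]
    decide +kernel
  · exact_mod_cast crit_51_140

lemma crit_105_88 : CritA 105 88 := by
  intro H D l hH hD hl hHa hDb hle c1 c2 c3
  have q1 := c1 3 (by norm_num) (by norm_num)
  have q2 := c1 5 (by norm_num) (by norm_num)
  have q3 := c1 7 (by norm_num) (by norm_num)
  have q4 := c2 11 (by norm_num) (by norm_num) (by norm_num)
  have q5 := c3 17 (by norm_num) (by norm_num) (by norm_num)
  have q6 := c3 193 (by norm_num) (by norm_num) (by norm_num)
  obtain ⟨H', hH', rfl⟩ := dvd_cases 105 H hH (by exact_mod_cast hHa) (by norm_num)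
  obtain ⟨D', hD', rfl⟩ := dvd_cases 88 D hD (by exact_mod_cast hDb) (by norm_num)
  have hle' : l ∣ (3281 : ℤ) := by
    have h := hle
    norm_num at h
    exact h
  obtain ⟨l', hl', rfl⟩ := dvd_cases 3281 l hl (by exact_mod_cast hle') (by norm_num)
  have e1 : Nat.divisors 105 =
      {1, 3, 5, 7, 15, 21, 35, 105} := by decide +kernel
  rw [e1] at hH'
  have e2 : Nat.divisors 88 =
      {1, 2, 4, 8, 11, 22, 44, 88} := by decide +kernel
  rw [e2] at hD'
  have e3 : Nat.divisors 3281 =
      {1, 17, 193, 3281} := by decide +kernel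
  rw [e3] at hl'
  clear c1 c2 c3 hHa hDb hle hle' hH hD hl
  simp only [Finset.mem_insert, Finset.mem_singleton] at hH' hD' hl'
  rcases hH' with rfl | rfl | rfl | rfl | rfl | rfl | rfl | rfl <;>
    rcases hD' with rfl | rfl | rfl | rfl | rfl | rfl | rfl | rfl <;>
    rcases hl' with rfl | rfl | rfl | rfl <;>
    first
    | (constructor <;> norm_num; done)
    | (exfalso; revert q1; decide +kernel)
    | (exfalso; revert q2; decide +kernel)
    | (exfalso; revert q3; decide +kernel)
    | (exfalso; revert q4; decide +kernel)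
    | (exfalso; revert q5; decide +kernel)
    | (exfalso; revert q6; decide +kernel)

theorem excluded_105_88 : ExcludedA 105 88 := by
  apply excludedA 105 88 (by norm_num) (by norm_num) (by norm_num)
  · rw [← Int.squarefree_natAbs]
    decide +kernel
  · exact_mod_cast crit_105_88

lemma crit_143_24 : CritA 143 24 := by
  intro H D l hH hD hl hHa hDb hle c1 c2 c3
  have q1 := c1 11 (by norm_num) (by norm_num)
  have q2 := c1 13 (by norm_num) (by norm_num)
  have q3 := c2 3 (by norm_num) (by norm_num) (by norm_num)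
  have q4 := c3 17 (by norm_num) (by norm_num) (by norm_num)
  obtain ⟨H', hH', rfl⟩ := dvd_cases 143 H hH (by exact_mod_cast hHa) (by norm_num)
  obtain ⟨D', hD', rfl⟩ := dvd_cases 24 D hD (by exact_mod_cast hDb) (by norm_num)
  have hle' : l ∣ (19873 : ℤ) := by
    have h := hle
    norm_num at h
    exact h
  obtain ⟨l', hl', rfl⟩ := dvd_cases 19873 l hl (by exact_mod_cast hle') (by norm_num)
  have e1 : Nat.divisors 143 =
      {1, 11, 13, 143} := by decide +kernel
  rw [e1] at hH'
  have e2 : Nat.divisors 24 =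
      {1, 2, 3, 4, 6, 8, 12, 24} := by decide +kernel
  rw [e2] at hD'
  have e3 : Nat.divisors 19873 =
      {1, 7, 17, 119, 167, 1169, 2839, 19873} := by decide +kernel
  rw [e3] at hl'
  clear c1 c2 c3 hHa hDb hle hle' hH hD hl
  simp only [Finset.mem_insert, Finset.mem_singleton] at hH' hD' hl'
  rcases hH' with rfl | rfl | rfl | rfl <;>
    rcases hD' with rfl | rfl | rfl | rfl | rfl | rfl | rfl | rfl <;>
    rcases hl' with rfl | rfl | rfl | rfl | rfl | rfl | rfl | rfl <;>
    first
    | (constructor <;> norm_num; done)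
    | (exfalso; revert q1; decide +kernel)
    | (exfalso; revert q2; decide +kernel)
    | (exfalso; revert q3; decide +kernel)
    | (exfalso; revert q4; decide +kernel)

theorem excluded_143_24 : ExcludedA 143 24 := by
  apply excludedA 143 24 (by norm_num) (by norm_num) (by norm_num)
  · rw [← Int.squarefree_natAbs]
    decide +kernel
  · exact_mod_cast crit_143_24

/-- The criterion and eight Pythagorean ratios. -/
theorem mainA :
    (∀ a b : ℕ, a % 2 = 1 → 4 ∣ b → ¬ 16 ∣ b → Squarefree ((b : ℤ) ^ 2 - (a : ℤ) ^ 2) →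
      CritA a b → ExcludedA a b) ∧
      ExcludedA 5 12 ∧ ExcludedA 15 8 ∧ ExcludedA 35 12 ∧ ExcludedA 33 56 ∧
      ExcludedA 21 220 ∧ ExcludedA 51 140 ∧ ExcludedA 105 88 ∧ ExcludedA 143 24 :=
  ⟨excludedA, excluded_5_12, excluded_15_8, excluded_35_12, excluded_33_56,
    excluded_21_220, excluded_51_140, excluded_105_88, excluded_143_24⟩

end Pool.Agent.CUBE
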