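import Pool.Agent.CUBD.Step

/-! Local conditions for `t² + a² s² = u²`, `t² + b² s² = v²` (MP_c16a21, type A). -/

set_option autoImplicit false

namespace Pool.Agent.CUBE

open Pool.Agent.CUBD

/-- The local conditions at the odd primes. -/
lemma locals (ε a b s t u v H D l k m n g h X Y : ℤ) (hε : ε = 1 ∨ ε = 2)
    (h1 : t ^ 2 + a ^ 2 * s ^ 2 = u ^ 2) (h2 : t ^ 2 + b ^ 2 * s ^ 2 = v ^ 2)
    (k1 : v + u = ε * (l * Y ^ 2)) (k2 : v - u = ε * (k * X ^ 2))
    (k3 : u + t = ε * (H * m ^ 2)) (k4 : u - t = ε * (H * n ^ 2))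
    (k5 : v + t = ε * (D * g ^ 2)) (k6 : v - t = ε * (D * h ^ 2))
    (hkl : l * k = b ^ 2 - a ^ 2)
    (hgh : ∀ p : ℕ, p.Prime → p ≠ 2 → (p : ℤ) ∣ g → (p : ℤ) ∣ h → False)
    (hXY : ∀ p : ℕ, p.Prime → p ≠ 2 → (p : ℤ) ∣ l * Y ^ 2 → (p : ℤ) ∣ k * X ^ 2 → False)
    (hDa : ∀ p : ℕ, p.Prime → (p : ℤ) ∣ a → ¬ (p : ℤ) ∣ D)
    (hHb : ∀ p : ℕ, p.Prime → (p : ℤ) ∣ b → ¬ (p : ℤ) ∣ H) :
    (∀ p : ℕ, p.Prime → p ≠ 2 → (p : ℤ) ∣ a → IsSquare ((D * l : ℤ) : ZMod p)) ∧
      (∀ p : ℕ, p.Prime → p ≠ 2 → (p : ℤ) ∣ b → IsSquare ((H * l : ℤ) : ZMod p)) ∧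
      ∀ p : ℕ, p.Prime → p % 4 = 1 → (p : ℤ) ∣ b ^ 2 - a ^ 2 →
        IsSquare ((H * D : ℤ) : ZMod p) := by
  have heps : ∀ p : ℕ, p.Prime → p ≠ 2 → (ε : ZMod p) ≠ 0 := by
    intro p hp hp2
    have : Fact p.Prime := ⟨hp⟩
    rcases hε with h | h
    · rw [h]; simp
    · rw [h]
      intro h0
      have : ((2 : ℕ) : ZMod p) = 0 := by exact_mod_cast h0
      rw [ZMod.natCast_eq_zero_iff] at this
      exact hp2 ((Nat.prime_dvd_prime_iff_eq hp Nat.prime_two).mp this)
  refine ⟨?_, ?_, ?_⟩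
  · intro p hp hp2 hpa
    have : Fact p.Prime := ⟨hp⟩
    have hε0 := heps p hp hp2
    have haz : (a : ZMod p) = 0 := (ZMod.intCast_zmod_eq_zero_iff_dvd _ p).mpr hpa
    have hDz : (D : ZMod p) ≠ 0 := fun h0 =>
      hDa p hp hpa ((ZMod.intCast_zmod_eq_zero_iff_dvd _ p).mp h0)
    have htu' : (t : ZMod p) ^ 2 = (u : ZMod p) ^ 2 := by
      have := congrArg (fun x : ℤ => (x : ZMod p)) h1
      push_cast at this
      rw [haz] at this
      linear_combination this
    have K1 := congrArg (fun x : ℤ => (x : ZMod p)) k1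
    have K2 := congrArg (fun x : ℤ => (x : ZMod p)) k2
    have K5 := congrArg (fun x : ℤ => (x : ZMod p)) k5
    have K6 := congrArg (fun x : ℤ => (x : ZMod p)) k6
    have K9 := congrArg (fun x : ℤ => (x : ZMod p)) hkl
    push_cast at K1 K2 K5 K6 K9
    push_cast
    obtain ⟨A, B, hA, hB⟩ : ∃ A B : ZMod p, (D : ZMod p) * ((l : ZMod p) * (Y : ZMod p) ^ 2) = A ^ 2 ∧
        (D : ZMod p) * ((k : ZMod p) * (X : ZMod p) ^ 2) = B ^ 2 := by
      rcases sq_eq_sq_iff_eq_or_eq_neg.mp htu' with hh | hh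
      · refine ⟨D * g, D * h, ?_, ?_⟩
        · apply mul_left_cancel₀ hε0
          linear_combination (D : ZMod p) * (-K1 + K5 - hh)
        · apply mul_left_cancel₀ hε0
          linear_combination (D : ZMod p) * (-K2 + K6 + hh)
      · refine ⟨D * h, D * g, ?_, ?_⟩
        · apply mul_left_cancel₀ hε0
          linear_combination (D : ZMod p) * (-K1 + K6 + hh)
        · apply mul_left_cancel₀ hε0
          linear_combination (D : ZMod p) * (-K2 + K5 - hh)
    refine isSquare_half p (D : ZMod p) (l : ZMod p) (k : ZMod p) (Y : ZMod p) (X : ZMod p) A B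
      (b : ZMod p) hA hB (by rw [K9, haz]; ring) ?_
    by_cases hY : (Y : ZMod p) = 0
    · right
      rintro rfl
      have h3 : (D : ZMod p) * ((k : ZMod p) * (X : ZMod p) ^ 2) = 0 := by rw [hB]; ring
      rcases mul_eq_zero.mp h3 with h4 | h4
      · exact hDz h4
      · apply hXY p hp hp2
        · apply (ZMod.intCast_zmod_eq_zero_iff_dvd _ p).mp
          push_cast
          rw [hY]; ring
        · apply (ZMod.intCast_zmod_eq_zero_iff_dvd _ p).mp
          push_cast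
          exact h4
    · exact Or.inl hY
  · intro p hp hp2 hpb
    have : Fact p.Prime := ⟨hp⟩
    have hε0 := heps p hp hp2
    have hbz : (b : ZMod p) = 0 := (ZMod.intCast_zmod_eq_zero_iff_dvd _ p).mpr hpb
    have hHz : (H : ZMod p) ≠ 0 := fun h0 =>
      hHb p hp hpb ((ZMod.intCast_zmod_eq_zero_iff_dvd _ p).mp h0)
    have htv' : (t : ZMod p) ^ 2 = (v : ZMod p) ^ 2 := by
      have := congrArg (fun x : ℤ => (x : ZMod p)) h2
      push_cast at this
      rw [hbz] at this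
      linear_combination this
    have K1 := congrArg (fun x : ℤ => (x : ZMod p)) k1
    have K2 := congrArg (fun x : ℤ => (x : ZMod p)) k2
    have K3 := congrArg (fun x : ℤ => (x : ZMod p)) k3
    have K4 := congrArg (fun x : ℤ => (x : ZMod p)) k4
    have K9 := congrArg (fun x : ℤ => (x : ZMod p)) hkl
    push_cast at K1 K2 K3 K4 K9
    push_cast
    obtain ⟨A, B, hA, hB⟩ : ∃ A B : ZMod p, (H : ZMod p) * ((l : ZMod p) * (Y : ZMod p) ^ 2) = A ^ 2 ∧
        (H : ZMod p) * (-(k : ZMod p) * (X : ZMod p) ^ 2) = B ^ 2 := by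
      rcases sq_eq_sq_iff_eq_or_eq_neg.mp htv' with hh | hh
      · refine ⟨H * m, H * n, ?_, ?_⟩
        · apply mul_left_cancel₀ hε0
          linear_combination (H : ZMod p) * (-K1 + K3 - hh)
        · apply mul_left_cancel₀ hε0
          linear_combination (H : ZMod p) * (K2 + K4 + hh)
      · refine ⟨H * n, H * m, ?_, ?_⟩
        · apply mul_left_cancel₀ hε0
          linear_combination (H : ZMod p) * (-K1 + K4 + hh)
        · apply mul_left_cancel₀ hε0
          linear_combination (H : ZMod p) * (K2 + K3 - hh)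
    refine isSquare_half p (H : ZMod p) (l : ZMod p) (-(k : ZMod p)) (Y : ZMod p) (X : ZMod p) A B
      (a : ZMod p) hA hB (by rw [hbz] at K9; linear_combination -K9) ?_
    by_cases hY : (Y : ZMod p) = 0
    · right
      rintro rfl
      have h3 : (H : ZMod p) * (-(k : ZMod p) * (X : ZMod p) ^ 2) = 0 := by rw [hB]; ring
      rcases mul_eq_zero.mp h3 with h4 | h4
      · exact hHz h4
      · apply hXY p hp hp2
        · apply (ZMod.intCast_zmod_eq_zero_iff_dvd _ p).mp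
          push_cast
          rw [hY]; ring
        · apply (ZMod.intCast_zmod_eq_zero_iff_dvd _ p).mp
          push_cast
          linear_combination -h4
    · exact Or.inl hY
  · intro p hp hp4 hpe
    have : Fact p.Prime := ⟨hp⟩
    have hp2 : p ≠ 2 := by omega
    have hε0 := heps p hp hp2
    obtain ⟨i, hi⟩ : IsSquare (-1 : ZMod p) := ZMod.exists_sq_eq_neg_one_iff.mpr (by omega)
    have hez : ((b : ZMod p) ^ 2 - (a : ZMod p) ^ 2) = 0 := by
      have := (ZMod.intCast_zmod_eq_zero_iff_dvd _ p).mpr hpe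
      push_cast at this
      exact this
    have huv' : (v : ZMod p) ^ 2 = (u : ZMod p) ^ 2 := by
      have H1 := congrArg (fun x : ℤ => (x : ZMod p)) h1
      have H2 := congrArg (fun x : ℤ => (x : ZMod p)) h2
      push_cast at H1 H2
      linear_combination H1 - H2 + (s : ZMod p) ^ 2 * hez
    have K3 := congrArg (fun x : ℤ => (x : ZMod p)) k3
    have K4 := congrArg (fun x : ℤ => (x : ZMod p)) k4
    have K5 := congrArg (fun x : ℤ => (x : ZMod p)) k5
    have K6 := congrArg (fun x : ℤ => (x : ZMod p)) k6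
    push_cast at K3 K4 K5 K6
    push_cast
    have hghz : (g : ZMod p) ≠ 0 ∨ (h : ZMod p) ≠ 0 := by
      by_contra hcon
      push Not at hcon
      exact hgh p hp hp2 ((ZMod.intCast_zmod_eq_zero_iff_dvd _ p).mp hcon.1)
        ((ZMod.intCast_zmod_eq_zero_iff_dvd _ p).mp hcon.2)
    rcases sq_eq_sq_iff_eq_or_eq_neg.mp huv' with hh | hh
    · refine isSquare_of p _ g h (H * m) (H * n) ?_ ?_ hghz
      · apply mul_left_cancel₀ hε0
        linear_combination (H : ZMod p) * (-K5 + K3 + hh)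
      · apply mul_left_cancel₀ hε0
        linear_combination (H : ZMod p) * (-K6 + K4 + hh)
    · refine isSquare_of p _ g h (i * (H * n)) (i * (H * m)) ?_ ?_ hghz
      · apply mul_left_cancel₀ hε0
        linear_combination (H : ZMod p) * (-K5 - K4 + hh) +
          (ε : ZMod p) * (H : ZMod p) ^ 2 * (n : ZMod p) ^ 2 * hi
      · apply mul_left_cancel₀ hε0
        linear_combination (H : ZMod p) * (-K6 - K3 + hh) +
          (ε : ZMod p) * (H : ZMod p) ^ 2 * (m : ZMod p) ^ 2 * hi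

/-- The criterion for type A. -/
def CritA (a b : ℤ) : Prop :=
  ∀ H D l : ℤ, 0 < H → 0 < D → 0 < l → H ∣ a → D ∣ b → l ∣ b ^ 2 - a ^ 2 →
    (∀ p : ℕ, p.Prime → (p : ℤ) ∣ a → IsSquare ((D * l : ℤ) : ZMod p)) →
    (∀ p : ℕ, p.Prime → p ≠ 2 → (p : ℤ) ∣ b → IsSquare ((H * l : ℤ) : ZMod p)) →
    (∀ p : ℕ, p.Prime → p % 4 = 1 → (p : ℤ) ∣ b ^ 2 - a ^ 2 → IsSquare ((H * D : ℤ) : ZMod p)) →
    (D % 2 = 1 → l % 8 = H % 8 → H = 1 ∧ D = 1 ∧ l = 1) ∧
      ((b / D) % 2 = 1 → l % 8 = (H + D) % 8 → H = a ∧ D = b)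

/-- Signed factorization of `e w²`. -/
lemma split_signed (α β e w : ℤ) (hα : α ≠ 0) (hβ : 0 < β) (he : e ≠ 0) (hw : 0 < w)
    (hcop : IsCoprime α β) (h : α * β = e * w ^ 2) :
    ∃ l k X Y : ℤ, 0 < l ∧ 0 < X ∧ 0 < Y ∧ l * k = e ∧ α = k * X ^ 2 ∧
      β = l * Y ^ 2 ∧ X * Y = w := by
  rcases lt_or_gt_of_ne hα with ha | ha
  · have he' : e < 0 := by
      by_contra hcon
      push Not at hcon
      have h1 : α * β < 0 := mul_neg_of_neg_of_pos ha hβ
      have h2 : 0 ≤ e * w ^ 2 := by positivity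
      linarith
    obtain ⟨g, k, X, Y, hg, hk, hX, hY, hgk, hαX, hβY, hXY⟩ := split_mul (-α) β (-e) w
      (by linarith) hβ (by linarith) hw hcop.neg_left (by linear_combination -h)
    exact ⟨k, -g, X, Y, hk, hX, hY, by linear_combination -hgk, by linear_combination -hαX, hβY,
      hXY⟩
  · have he' : 0 < e := by
      by_contra hcon
      push Not at hcon
      have h1 : 0 < α * β := mul_pos ha hβ
      have h2 : e * w ^ 2 ≤ 0 := mul_nonpos_of_nonpos_of_nonneg hcon (by positivity)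
      linarith
    obtain ⟨g, k, X, Y, hg, hk, hX, hY, hgk, hαX, hβY, hXY⟩ := split_mul α β e w ha hβ he' hw
      hcop h
    exact ⟨k, g, X, Y, hk, hX, hY, by linear_combination hgk, hαX, hβY, hXY⟩

end Pool.Agent.CUBE
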