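import Pool.Agent.CUBE.Locals

/-! The case `t` odd, `s` even (MP_c16a21, type A). -/

set_option autoImplicit false

namespace Pool.Agent.CUBE

open Pool.Agent.CUBD

/-- Parametrization, `t` odd. -/
lemma param_odd (c s t u : ℤ) (hc : 0 < c) (hs : 0 < s) (hto : t % 2 = 1)
    (hst : Int.gcd s t = 1) (hu : 0 < u) (h1 : t ^ 2 + c ^ 2 * s ^ 2 = u ^ 2) :
    ∃ H c1 m n : ℤ, 0 < H ∧ c = H * c1 ∧ H ∣ t ∧ H % 2 = 1 ∧ 0 < m ∧ 0 < n ∧ Int.gcd m n = 1 ∧
      u + t = 2 * (H * m ^ 2) ∧ u - t = 2 * (H * n ^ 2) ∧ c1 * s = 2 * m * n ∧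
      (m % 2 = 0 ∧ n % 2 = 1 ∨ m % 2 = 1 ∧ n % 2 = 0) := by
  obtain ⟨H, hH⟩ : ∃ H : ℤ, H = (Int.gcd c t : ℤ) := ⟨_, rfl⟩
  have hH0 : 0 < H := by
    rw [hH]
    have : 0 < Int.gcd c t := Int.gcd_pos_of_ne_zero_left _ hc.ne'
    exact_mod_cast this
  obtain ⟨c1, hc1⟩ : H ∣ c := by rw [hH]; exact Int.gcd_dvd_left c t
  obtain ⟨t1, ht1⟩ : H ∣ t := by rw [hH]; exact Int.gcd_dvd_right c t
  obtain ⟨u0, hu0⟩ : H ∣ u := by
    have : H ^ 2 ∣ u ^ 2 := ⟨t1 ^ 2 + c1 ^ 2 * s ^ 2, by rw [← h1, hc1, ht1]; ring⟩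
    exact (Int.pow_dvd_pow_iff (by norm_num)).mp this
  have hc10 : 0 < c1 := by rw [hc1] at hc; exact (mul_pos_iff_of_pos_left hH0).mp hc
  have hu00 : 0 < u0 := by rw [hu0] at hu; exact (mul_pos_iff_of_pos_left hH0).mp hu
  have hgct : Int.gcd c1 t1 = 1 := gcd_div hH hc hc1 ht1
  have hct : Int.gcd t1 (c1 * s) = 1 := by
    rw [← Int.isCoprime_iff_gcd_eq_one]
    refine IsCoprime.mul_right (Int.isCoprime_iff_gcd_eq_one.mpr hgct).symm ?_
    have hcst : IsCoprime t s := (Int.isCoprime_iff_gcd_eq_one.mpr hst).symm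
    rw [ht1] at hcst
    exact hcst.of_mul_left_right
  have ht1o : t1 % 2 = 1 := by
    by_contra hne
    have h6 : t1 % 2 = 0 := by omega
    have h7 : t % 2 = 0 := by rw [ht1]; simp [Int.mul_emod, h6]
    omega
  have hHo : H % 2 = 1 := by
    by_contra hne
    have h6 : H % 2 = 0 := by omega
    have h7 : t % 2 = 0 := by rw [ht1]; simp [Int.mul_emod, h6]
    omega
  have hP1 : PythagoreanTriple t1 (c1 * s) u0 := by
    unfold PythagoreanTriple
    have hH2 : H ^ 2 ≠ 0 := by positivity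
    apply mul_left_cancel₀ hH2
    have h3 := h1
    rw [hu0, hc1, ht1] at h3
    linear_combination h3
  obtain ⟨m, n, e1, e2, e3, hmn, hpar, hm0⟩ :=
    PythagoreanTriple.coprime_classification' hP1 hct ht1o hu00
  have has : 0 < c1 * s := by positivity
  have hm : 0 < m := by
    rcases hm0.lt_or_eq with h | h
    · exact h
    · rw [← h] at e2; simp at e2; omega
  have hn : 0 < n := by
    by_contra hn
    push Not at hn
    nlinarith
  refine ⟨H, c1, m, n, hH0, hc1, ⟨t1, ht1⟩, hHo, hm, hn, hmn, ?_, ?_, e2, hpar⟩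
  · have : u + t = H * (u0 + t1) := by rw [hu0, ht1]; ring
    rw [this, e3, e1]; ring
  · have : u - t = H * (u0 - t1) := by rw [hu0, ht1]; ring
    rw [this, e3, e1]; ring

lemma mod8 (l k H X Y m n z e : ℤ) (hY : l * Y ^ 2 = H * m ^ 2 + 8 * z)
    (hX : k * X ^ 2 = -(H * n ^ 2) + 8 * z) (hkl : l * k = e) (he : e % 8 = 7)
    (hHo : H % 2 = 1) (hmn : m % 2 = 0 ∧ n % 2 = 1 ∨ m % 2 = 1 ∧ n % 2 = 0) :
    l % 8 = H % 8 := by
  rcases hmn with ⟨_, hn⟩ | ⟨hm, _⟩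
  · -- `n` odd
    have hn2 := sq_odd n hn
    have h1 : (H * n ^ 2) % 8 = H % 8 := by rw [Int.mul_emod, hn2]; omega
    have h2 : (k * X ^ 2) % 8 = (-H) % 8 := by rw [hX]; omega
    have hXo : X % 2 = 1 := by
      by_contra hne
      have h6 : X % 2 = 0 := by omega
      have h7 : (k * X ^ 2) % 2 = 0 := by
        rw [Int.mul_emod, pow_two, Int.mul_emod X X, h6]; simp
      omega
    have hX2 := sq_odd X hXo
    have h3 : (k * X ^ 2) % 8 = k % 8 := by rw [Int.mul_emod, hX2]; omega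
    have h4 : k % 8 = (-H) % 8 := by rw [← h3]; exact h2
    have h5 : (l * k) % 8 = 7 := by rw [hkl]; exact he
    rw [Int.mul_emod, h4] at h5
    have hH8 : H % 8 = 1 ∨ H % 8 = 3 ∨ H % 8 = 5 ∨ H % 8 = 7 := by omega
    have hl8 : l % 8 = 0 ∨ l % 8 = 1 ∨ l % 8 = 2 ∨ l % 8 = 3 ∨ l % 8 = 4 ∨ l % 8 = 5 ∨
      l % 8 = 6 ∨ l % 8 = 7 := by omega
    have hneg : (-H) % 8 = 8 - H % 8 := by omega
    rw [hneg] at h5
    rcases hH8 with h | h | h | h <;> rw [h] at h5 ⊢ <;>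
      rcases hl8 with h' | h' | h' | h' | h' | h' | h' | h' <;> rw [h'] at h5 ⊢ <;> omega
  · -- `m` odd
    have hm2 := sq_odd m hm
    have h1 : (H * m ^ 2) % 8 = H % 8 := by rw [Int.mul_emod, hm2]; omega
    have h2 : (l * Y ^ 2) % 8 = H % 8 := by rw [hY]; omega
    have hYo : Y % 2 = 1 := by
      by_contra hne
      have h6 : Y % 2 = 0 := by omega
      have h7 : (l * Y ^ 2) % 2 = 0 := by
        rw [Int.mul_emod, pow_two, Int.mul_emod Y Y, h6]; simp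
      omega
    have hY2 := sq_odd Y hYo
    have h3 : (l * Y ^ 2) % 8 = l % 8 := by rw [Int.mul_emod, hY2]; omega
    rw [← h3]; exact h2

lemma sf_common {a b : ℤ} (hsf : Squarefree (b ^ 2 - a ^ 2)) (p : ℕ) (hp : p.Prime)
    (d1 : (p : ℤ) ∣ a) (d2 : (p : ℤ) ∣ b) : False := by
  have hpp : Prime (p : ℤ) := Nat.prime_iff_prime_int.mp hp
  exact hpp.not_isUnit (hsf _ (dvd_sub (by rw [pow_two]; exact mul_dvd_mul d2 d2)
    (by rw [pow_two]; exact mul_dvd_mul d1 d1)))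

/-- The case `t` odd, `s` even: all classes are trivial. -/
lemma p1core (a b s t u v : ℤ) (ha0 : 0 < a) (hb0 : 0 < b) (hao : a % 2 = 1) (h4b : (4 : ℤ) ∣ b)
    (hsf : Squarefree (b ^ 2 - a ^ 2)) (hcrit : CritA a b) (hs : 0 < s)
    (hst : Int.gcd s t = 1) (hu : 0 < u) (hv : 0 < v) (hse : s % 2 = 0)
    (h1 : t ^ 2 + a ^ 2 * s ^ 2 = u ^ 2) (h2 : t ^ 2 + b ^ 2 * s ^ 2 = v ^ 2) :
    ∃ m n g h X Y : ℤ, 0 < m ∧ 0 < n ∧ 0 < g ∧ 0 < h ∧ 0 < X ∧ 0 < Y ∧
      u + t = 2 * m ^ 2 ∧ u - t = 2 * n ^ 2 ∧ v + t = 2 * g ^ 2 ∧ v - t = 2 * h ^ 2 ∧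
      v + u = 2 * Y ^ 2 ∧ s = 2 * (X * Y) := by
  obtain ⟨w, hw⟩ : ∃ w, s = 2 * w := ⟨s / 2, by omega⟩
  have hw0 : 0 < w := by omega
  have hto : t % 2 = 1 := by
    by_contra hne
    have h2t : (2 : ℤ) ∣ t := by omega
    have h2s : (2 : ℤ) ∣ s := by omega
    have := Int.dvd_coe_gcd h2s h2t
    rw [hst] at this
    omega
  have hb4 : b % 4 = 0 := by omega
  have he7 : (b ^ 2 - a ^ 2) % 8 = 7 := by
    have := sq_four b hb4
    have := sq_odd a hao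
    omega
  have he0 : b ^ 2 - a ^ 2 ≠ 0 := by omega
  obtain ⟨H, a1, m, n, hH0, ha1, hHt, hHo, hm, hn, hmn, k3, k4, hasn, hpar⟩ :=
    param_odd a s t u ha0 hs hto hst hu h1
  obtain ⟨D, b1, g, h, hD0, hb1, hDt, hDo, hg, hh, hgh, k5, k6, hbsn, hpar2⟩ :=
    param_odd b s t v hb0 hs hto hst hv h2
  have ht2 := sq_odd t hto
  have huo : u % 2 = 1 := by omega
  have hvo : v % 2 = 1 := by omega
  -- `4 ∣ s`
  have hs4 : s % 4 = 0 := by
    by_contra hne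
    have h3 : s % 4 = 2 := by omega
    have h4 := sq_two s h3
    have h5 : (a ^ 2 * s ^ 2) % 8 = 4 := by
      rw [Int.mul_emod, sq_odd a hao, show s ^ 2 % 8 = 4 by omega]; norm_num
    have h6 := sq_odd u huo
    omega
  obtain ⟨α, hα⟩ : ∃ α, v - u = 2 * α := ⟨(v - u) / 2, by omega⟩
  obtain ⟨β, hβ⟩ : ∃ β, v + u = 2 * β := ⟨(v + u) / 2, by omega⟩
  have hprod : α * β = (b ^ 2 - a ^ 2) * w ^ 2 := by
    have h3 : (v - u) * (v + u) = (b ^ 2 - a ^ 2) * s ^ 2 := by linarith [h1, h2]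
    rw [hα, hβ, hw] at h3
    linarith
  have hβ0 : 0 < β := by omega
  have hα0 : α ≠ 0 := by
    rintro rfl
    have h3 : (b ^ 2 - a ^ 2) * w ^ 2 = 0 := by rw [← hprod]; ring
    rcases mul_eq_zero.mp h3 with h4 | h4
    · exact he0 h4
    · have := pow_eq_zero_iff (two_ne_zero) |>.mp h4
      omega
  have hcop : IsCoprime α β := by
    rw [Int.isCoprime_iff_gcd_eq_one]
    by_contra hne
    obtain ⟨p, hp1, d1, d2⟩ := prime_of_gcd hne
    have hpp : Prime (p : ℤ) := Nat.prime_iff_prime_int.mp hp1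
    have du : (p : ℤ) ∣ u := by
      have h3 : u = β - α := by linarith
      rw [h3]; exact dvd_sub d2 d1
    have ds : ¬ (p : ℤ) ∣ w := by
      intro d
      have d3 : (p : ℤ) ∣ s := by rw [hw]; exact dvd_mul_of_dvd_right d 2
      have d4 : (p : ℤ) ∣ t ^ 2 := by
        have h3 : t ^ 2 = u ^ 2 - a ^ 2 * s ^ 2 := by linarith
        rw [h3]
        exact dvd_sub (dvd_pow du two_ne_zero) (dvd_mul_of_dvd_right (dvd_pow d3 two_ne_zero) _)
      exact no_common hst p hp1 d3 (hpp.dvd_of_dvd_pow d4)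
    have dq : (p : ℤ) * p ∣ (b ^ 2 - a ^ 2) * w ^ 2 := by
      rw [← hprod]; exact mul_dvd_mul d1 d2
    have hcw : IsCoprime ((p : ℤ) * p) (w ^ 2) := by
      have h3 : IsCoprime (p : ℤ) w := (Prime.coprime_iff_not_dvd hpp).mpr ds
      exact (h3.mul_left h3).pow_right
    exact hpp.not_isUnit (hsf _ (hcw.dvd_of_dvd_mul_right dq))
  obtain ⟨l, k, X, Y, hl0, hX0, hY0, hkl, hαX, hβY, hXY⟩ :=
    split_signed α β (b ^ 2 - a ^ 2) w hα0 hβ0 he0 hw0 hcop hprod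
  have k1 : v + u = 2 * (l * Y ^ 2) := by rw [← hβY]; exact hβ
  have k2 : v - u = 2 * (k * X ^ 2) := by rw [← hαX]; exact hα
  obtain ⟨L1, L2, L3⟩ := locals 2 a b s t u v H D l k m n g h X Y (Or.inr rfl) h1 h2 k1 k2 k3 k4
    k5 k6 hkl (fun p hp _ d1 d2 => no_common hgh p hp d1 d2)
    (fun p hp _ d1 d2 => no_common (Int.isCoprime_iff_gcd_eq_one.mp hcop) p hp
      (by rw [hαX]; exact d2) (by rw [hβY]; exact d1))
    (fun p hp d1 d2 => sf_common hsf p hp d1 (by rw [hb1]; exact dvd_mul_of_dvd_left d2 b1))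
    (fun p hp d1 d2 => sf_common hsf p hp (by rw [ha1]; exact dvd_mul_of_dvd_left d2 a1) d1)
  -- the 2-adic condition
  have h16 : (16 : ℤ) ∣ v - t ∨ (16 : ℤ) ∣ v + t := by
    obtain ⟨s', hs'⟩ : (4 : ℤ) ∣ s := by omega
    obtain ⟨b', hb'⟩ := h4b
    have h3 : D * (g * h) = 8 * (b' * s') := by
      have h4 : D * (b1 * s) = b * s := by rw [hb1]; ring
      rw [hbsn, hb', hs'] at h4
      linarith
    have hcop4 : ∀ x : ℤ, x % 2 = 1 → IsCoprime (4 : ℤ) x := by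
      intro x hx
      have h5 : IsCoprime (2 : ℤ) x := by
        rw [Int.isCoprime_iff_gcd_eq_one]
        have hg2 : Int.gcd 2 x ∣ 2 := by
          have := Int.gcd_dvd_left 2 x
          exact_mod_cast this
        rcases (Nat.dvd_prime Nat.prime_two).mp hg2 with h6 | h6
        · exact h6
        · exfalso
          have := Int.gcd_dvd_right 2 x
          rw [h6] at this
          push_cast at this
          omega
      have h6 := h5.mul_left h5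
      norm_num at h6
      exact h6
    rcases hpar2 with ⟨hge, hho⟩ | ⟨hgo, hhe⟩
    · -- `g` even, `h` odd
      right
      have h5 : (D * h) % 2 = 1 := by rw [Int.mul_emod, hDo, hho]; norm_num
      have h6 : (4 : ℤ) ∣ (D * h) * g := ⟨2 * (b' * s'), by linear_combination h3⟩
      obtain ⟨g', hg'⟩ := (hcop4 _ h5).dvd_of_dvd_mul_left h6
      rw [k5, hg']
      exact ⟨2 * (D * g' ^ 2), by ring⟩
    · left
      have h5 : (D * g) % 2 = 1 := by rw [Int.mul_emod, hDo, hgo]; norm_num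
      have h6 : (4 : ℤ) ∣ (D * g) * h := ⟨2 * (b' * s'), by linear_combination h3⟩
      obtain ⟨h', hh'⟩ := (hcop4 _ h5).dvd_of_dvd_mul_left h6
      rw [k6, hh']
      exact ⟨2 * (D * h' ^ 2), by ring⟩
  have hl8 : l % 8 = H % 8 := by
    rcases h16 with ⟨z, hz⟩ | ⟨z, hz⟩
    · exact mod8 l k H X Y m n z _ (by linarith) (by linarith) hkl he7 hHo hpar
    · exact mod8 l k H X Y n m z _ (by linarith) (by linarith) hkl he7 hHo
        (by rcases hpar with ⟨h3, h4⟩ | ⟨h3, h4⟩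
            · exact Or.inr ⟨h4, h3⟩
            · exact Or.inl ⟨h4, h3⟩)
  obtain ⟨hc1, _⟩ := hcrit H D l hH0 hD0 hl0 ⟨a1, ha1⟩ ⟨b1, hb1⟩ ⟨k, hkl.symm⟩
    (fun p hp hpa => L1 p hp (by rintro rfl; push_cast at hpa; omega) hpa) L2 L3
  obtain ⟨hH1, hD1, hl1⟩ := hc1 hDo hl8
  rw [hH1, one_mul] at k3 k4
  rw [hD1, one_mul] at k5 k6
  rw [hl1, one_mul] at k1
  exact ⟨m, n, g, h, X, Y, hm, hn, hg, hh, hX0, hY0, k3, k4, k5, k6, k1, by rw [hXY]; exact hw⟩

end Pool.Agent.CUBE
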