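import Pool.Agent.CUBE.P1

/-! The case `t` even, `s` odd, and the descent (MP_c16a21, type A). -/

set_option autoImplicit false

namespace Pool.Agent.CUBE

open Pool.Agent.CUBD

lemma coprime_four {x : ℤ} (hx : x % 2 = 1) : IsCoprime (4 : ℤ) x := by
  have h5 : IsCoprime (2 : ℤ) x := by
    rw [Int.isCoprime_iff_gcd_eq_one]
    have hg2 : Int.gcd 2 x ∣ 2 := by
      have := Int.gcd_dvd_left 2 x
      exact_mod_cast this
    rcases (Nat.dvd_prime Nat.prime_two).mp hg2 with h6 | h6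
    · exact h6
    · exfalso
      have := Int.gcd_dvd_right 2 x
      rw [h6] at this
      push_cast at this
      omega
  have h6 := h5.mul_left h5
  norm_num at h6
  exact h6

/-- Parametrization, `t` even and `s` odd. -/
lemma param_even (c s t u : ℤ) (hc : 0 < c) (hs : 0 < s) (ht : 0 < t) (hso : s % 2 = 1)
    (ht4 : t % 4 = 0) (h16 : ¬ (16 : ℤ) ∣ c)
    (hst : Int.gcd s t = 1) (hu : 0 < u) (h1 : t ^ 2 + c ^ 2 * s ^ 2 = u ^ 2) :
    ∃ H c1 M N : ℤ, 0 < H ∧ c = H * c1 ∧ H ∣ t ∧ c1 % 2 = 1 ∧ 0 < M ∧ 0 < N ∧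
      M % 2 = 1 ∧ N % 2 = 1 ∧
      (∀ p : ℕ, p.Prime → p ≠ 2 → (p : ℤ) ∣ M → (p : ℤ) ∣ N → False) ∧
      u + t = H * M ^ 2 ∧ u - t = H * N ^ 2 ∧ c1 * s = M * N := by
  obtain ⟨H, hH⟩ : ∃ H : ℤ, H = (Int.gcd c t : ℤ) := ⟨_, rfl⟩
  have hH0 : 0 < H := by
    rw [hH]
    have : 0 < Int.gcd c t := Int.gcd_pos_of_ne_zero_left _ hc.ne'
    exact_mod_cast this
  obtain ⟨c1, hc1⟩ : H ∣ c := by rw [hH]; exact Int.gcd_dvd_left c t
  obtain ⟨t1, ht1⟩ : H ∣ t := by rw [hH]; exact Int.gcd_dvd_right c t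
  obtain ⟨u0, hu0⟩ : H ∣ u := by
    have : H ^ 2 ∣ u ^ 2 := ⟨t1 ^ 2 + c1 ^ 2 * s ^ 2, by rw [← h1, hc1, ht1]; ring⟩
    exact (Int.pow_dvd_pow_iff (by norm_num)).mp this
  have hc10 : 0 < c1 := by rw [hc1] at hc; exact (mul_pos_iff_of_pos_left hH0).mp hc
  have hu00 : 0 < u0 := by rw [hu0] at hu; exact (mul_pos_iff_of_pos_left hH0).mp hu
  have ht10 : 0 < t1 := by rw [ht1] at ht; exact (mul_pos_iff_of_pos_left hH0).mp ht
  have hgct : Int.gcd c1 t1 = 1 := gcd_div hH hc hc1 ht1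
  have hct : Int.gcd (c1 * s) t1 = 1 := by
    rw [← Int.isCoprime_iff_gcd_eq_one]
    refine IsCoprime.mul_left (Int.isCoprime_iff_gcd_eq_one.mpr hgct) ?_
    have hcst : IsCoprime t s := (Int.isCoprime_iff_gcd_eq_one.mpr hst).symm
    rw [ht1] at hcst
    exact hcst.of_mul_left_right.symm
  have hsq : t1 ^ 2 + (c1 * s) ^ 2 = u0 ^ 2 := by
    have hH2 : H ^ 2 ≠ 0 := by positivity
    apply mul_left_cancel₀ hH2
    have h3 := h1
    rw [hu0, hc1, ht1] at h3
    linear_combination h3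
  have hc1o : c1 % 2 = 1 := by
    by_contra hne
    have h5 : c1 % 2 = 0 := by omega
    have h6 : t1 % 2 = 1 := by
      by_contra hne2
      have h2a : ((2 : ℕ) : ℤ) ∣ c1 := by push_cast; omega
      have h2t : ((2 : ℕ) : ℤ) ∣ t1 := by push_cast; omega
      exact no_common hgct 2 Nat.prime_two h2a h2t
    have h7 := sq_odd t1 h6
    have h8 : (c1 * s) % 4 = 0 := by
      have h9 := sq_cases u0
      have h10 : (c1 * s) % 2 = 0 := by rw [Int.mul_emod, h5]; simp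
      have h11 : (c1 * s) % 4 = 0 ∨ (c1 * s) % 4 = 2 := by omega
      rcases h11 with h11 | h11
      · exact h11
      · have := sq_two (c1 * s) h11
        omega
    have h12 : (4 : ℤ) ∣ c1 :=
      (coprime_four hso).dvd_of_dvd_mul_right (Int.dvd_of_emod_eq_zero h8)
    have h13 : (4 : ℤ) ∣ H :=
      (coprime_four h6).dvd_of_dvd_mul_right (by rw [← ht1]; exact Int.dvd_of_emod_eq_zero ht4)
    apply h16
    have := mul_dvd_mul h13 h12
    rw [← hc1] at this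
    norm_num at this
    exact this
  have hcso : (c1 * s) % 2 = 1 := by rw [Int.mul_emod, hc1o, hso]; norm_num
  have hP1 : PythagoreanTriple (c1 * s) t1 u0 := by
    unfold PythagoreanTriple
    linear_combination hsq
  obtain ⟨m, n, e2, e1, e3, hmn, hpar, hm0⟩ :=
    PythagoreanTriple.coprime_classification' hP1 hct hcso hu00
  have has : 0 < c1 * s := by positivity
  have hm : 0 < m := by
    rcases hm0.lt_or_eq with h | h
    · exact h
    · rw [← h] at e1; simp at e1; omega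
  have hn : 0 < n := by
    by_contra hn
    push Not at hn
    nlinarith
  have hmn0 : 0 < m - n := by
    by_contra hcon
    push Not at hcon
    nlinarith
  refine ⟨H, c1, m + n, m - n, hH0, hc1, ⟨t1, ht1⟩, hc1o, by omega, hmn0, by omega, by omega,
    ?_, ?_, ?_, ?_⟩
  · intro p hp hp2 d1 d2
    have hpp : Prime (p : ℤ) := Nat.prime_iff_prime_int.mp hp
    have hnot2 : ¬ (p : ℤ) ∣ 2 := by
      intro h5
      have h6 : (p : ℤ) ∣ ((2 : ℕ) : ℤ) := by exact_mod_cast h5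
      exact hp2 ((Nat.prime_dvd_prime_iff_eq hp Nat.prime_two).mp (Int.natCast_dvd_natCast.mp h6))
    have d3 : (p : ℤ) ∣ 2 * m := by
      have : 2 * m = (m + n) + (m - n) := by ring
      rw [this]; exact dvd_add d1 d2
    have d4 : (p : ℤ) ∣ 2 * n := by
      have : 2 * n = (m + n) - (m - n) := by ring
      rw [this]; exact dvd_sub d1 d2
    exact no_common hmn p hp ((hpp.dvd_or_dvd d3).resolve_left hnot2)
      ((hpp.dvd_or_dvd d4).resolve_left hnot2)
  · have : u + t = H * (u0 + t1) := by rw [hu0, ht1]; ring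
    rw [this, e3, e1]; ring
  · have : u - t = H * (u0 - t1) := by rw [hu0, ht1]; ring
    rw [this, e3, e1]; ring
  · rw [e2]; ring

/-- The case `t` even, `s` odd. -/
lemma p2core (a b s t u v : ℤ) (ha0 : 0 < a) (hb0 : 0 < b) (hao : a % 2 = 1) (h4b : (4 : ℤ) ∣ b)
    (h16 : ¬ (16 : ℤ) ∣ b)
    (hsf : Squarefree (b ^ 2 - a ^ 2)) (hcrit : CritA a b) (hs : 0 < s) (ht : 0 < t)
    (hst : Int.gcd s t = 1) (hu : 0 < u) (hv : 0 < v) (hso : s % 2 = 1) (ht4 : t % 4 = 0)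
    (h1 : t ^ 2 + a ^ 2 * s ^ 2 = u ^ 2) (h2 : t ^ 2 + b ^ 2 * s ^ 2 = v ^ 2) :
    ∃ P Q : ℤ, 0 < P ∧ 0 < Q ∧ a ∣ t ∧ b ∣ t ∧ v + t = b * P ^ 2 ∧ v - t = b * Q ^ 2 ∧
      s = P * Q := by
  have hb4 : b % 4 = 0 := by omega
  have he7 : (b ^ 2 - a ^ 2) % 8 = 7 := by
    have := sq_four b hb4
    have := sq_odd a hao
    omega
  have he0 : b ^ 2 - a ^ 2 ≠ 0 := by omega
  obtain ⟨H, a1, M, N, hH0, ha1, hHt, ha1o, hM, hN, hMo, hNo, hMN, k3, k4, hasn⟩ :=
    param_even a s t u ha0 hs ht hso ht4 (fun h => by omega) hst hu h1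
  obtain ⟨D, b1, P, Q, hD0, hb1, hDt, hb1o, hP, hQ, hPo, hQo, hPQ, k5, k6, hbsn⟩ :=
    param_even b s t v hb0 hs ht hso ht4 h16 hst hv h2
  have hHo : H % 2 = 1 := by
    by_contra hne
    have h6 : H % 2 = 0 := by omega
    have h7 : a % 2 = 0 := by rw [ha1]; simp [Int.mul_emod, h6]
    omega
  have hM2 := sq_odd M hMo
  have hN2 := sq_odd N hNo
  have hP2 := sq_odd P hPo
  have hQ2 := sq_odd Q hQo
  have huo : u % 2 = 1 := by
    have h3 : (H * M ^ 2) % 2 = 1 := by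
      rw [Int.mul_emod, hHo, show M ^ 2 % 2 = 1 by omega]; norm_num
    omega
  have hve : v % 2 = 0 := by
    have hD2 : D % 2 = 0 := by
      by_contra hne
      have h6 : D % 2 = 1 := by omega
      have h7 : b % 2 = 1 := by rw [hb1, Int.mul_emod, h6, hb1o]; norm_num
      omega
    have h3 : (D * P ^ 2) % 2 = 0 := by rw [Int.mul_emod, hD2]; simp
    omega
  have hprod : (v - u) * (v + u) = (b ^ 2 - a ^ 2) * s ^ 2 := by linarith [h1, h2]
  have hβ0 : 0 < v + u := by omega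
  have hα0 : v - u ≠ 0 := by omega
  have hcop : IsCoprime (v - u) (v + u) := by
    rw [Int.isCoprime_iff_gcd_eq_one]
    by_contra hne
    obtain ⟨p, hp1, d1, d2⟩ := prime_of_gcd hne
    have hpp : Prime (p : ℤ) := Nat.prime_iff_prime_int.mp hp1
    have hp2 : p ≠ 2 := by rintro rfl; push_cast at d1; omega
    have hnot2 : ¬ (p : ℤ) ∣ 2 := by
      intro h5
      have h6 : (p : ℤ) ∣ ((2 : ℕ) : ℤ) := by exact_mod_cast h5
      exact hp2 ((Nat.prime_dvd_prime_iff_eq hp1 Nat.prime_two).mp (Int.natCast_dvd_natCast.mp h6))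
    have du : (p : ℤ) ∣ u := by
      have d3 : (p : ℤ) ∣ 2 * u := by
        have h3 : 2 * u = (v + u) - (v - u) := by ring
        rw [h3]; exact dvd_sub d2 d1
      exact (hpp.dvd_or_dvd d3).resolve_left hnot2
    have ds : ¬ (p : ℤ) ∣ s := by
      intro d3
      have d4 : (p : ℤ) ∣ t ^ 2 := by
        have h3 : t ^ 2 = u ^ 2 - a ^ 2 * s ^ 2 := by linarith
        rw [h3]
        exact dvd_sub (dvd_pow du two_ne_zero) (dvd_mul_of_dvd_right (dvd_pow d3 two_ne_zero) _)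
      exact no_common hst p hp1 d3 (hpp.dvd_of_dvd_pow d4)
    have dq : (p : ℤ) * p ∣ (b ^ 2 - a ^ 2) * s ^ 2 := by
      rw [← hprod]; exact mul_dvd_mul d1 d2
    have hcw : IsCoprime ((p : ℤ) * p) (s ^ 2) := by
      have h3 : IsCoprime (p : ℤ) s := (Prime.coprime_iff_not_dvd hpp).mpr ds
      exact (h3.mul_left h3).pow_right
    exact hpp.not_isUnit (hsf _ (hcw.dvd_of_dvd_mul_right dq))
  obtain ⟨l, k, X, Y, hl0, hX0, hY0, hkl, hαX, hβY, hXY⟩ :=
    split_signed (v - u) (v + u) (b ^ 2 - a ^ 2) s hα0 hβ0 he0 hs hcop hprod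
  obtain ⟨L1, L2, L3⟩ := locals 1 a b s t u v H D l k M N P Q X Y (Or.inl rfl) h1 h2
    (by rw [one_mul]; exact hβY) (by rw [one_mul]; exact hαX) (by rw [one_mul]; exact k3)
    (by rw [one_mul]; exact k4) (by rw [one_mul]; exact k5) (by rw [one_mul]; exact k6) hkl hPQ
    (fun p hp _ d1 d2 => no_common (Int.isCoprime_iff_gcd_eq_one.mp hcop) p hp
      (by rw [hαX]; exact d2) (by rw [hβY]; exact d1))
    (fun p hp d1 d2 => sf_common hsf p hp d1 (by rw [hb1]; exact dvd_mul_of_dvd_left d2 b1))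
    (fun p hp d1 d2 => sf_common hsf p hp (by rw [ha1]; exact dvd_mul_of_dvd_left d2 a1) d1)
  have hYo : Y % 2 = 1 := by
    by_contra hne
    have h6 : Y % 2 = 0 := by omega
    have h7 : (l * Y ^ 2) % 2 = 0 := by
      rw [Int.mul_emod, pow_two, Int.mul_emod Y Y, h6]; simp
    omega
  have hY2 := sq_odd Y hYo
  have hl8 : l % 8 = (H + D) % 8 := by
    have h3 : l * Y ^ 2 = D * P ^ 2 + H * N ^ 2 := by linarith
    have h4 : (l * Y ^ 2) % 8 = l % 8 := by rw [Int.mul_emod, hY2]; omega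
    have h5 : (D * P ^ 2) % 8 = D % 8 := by rw [Int.mul_emod, hP2]; omega
    have h6 : (H * N ^ 2) % 8 = H % 8 := by rw [Int.mul_emod, hN2]; omega
    omega
  obtain ⟨_, hc2⟩ := hcrit H D l hH0 hD0 hl0 ⟨a1, ha1⟩ ⟨b1, hb1⟩ ⟨k, hkl.symm⟩
    (fun p hp hpa => L1 p hp (by rintro rfl; push_cast at hpa; omega) hpa) L2 L3
  have hbD : b / D = b1 := Int.ediv_eq_of_eq_mul_right hD0.ne' hb1
  obtain ⟨hHa, hDb⟩ := hc2 (by rw [hbD]; exact hb1o) hl8
  have hb11 : b1 = 1 := by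
    rw [hDb] at hb1
    have : b * b1 = b * 1 := by linarith
    exact mul_left_cancel₀ hb0.ne' this
  refine ⟨P, Q, hP, hQ, by rw [← hHa]; exact hHt, by rw [← hDb]; exact hDt, ?_, ?_, ?_⟩
  · rw [k5, hDb]
  · rw [k6, hDb]
  · rw [← hbsn, hb11, one_mul]

/-- One step of the descent. -/
lemma stepA2 (a b s t u v : ℤ) (ha0 : 0 < a) (hb0 : 0 < b) (hao : a % 2 = 1) (h4b : (4 : ℤ) ∣ b)
    (h16 : ¬ (16 : ℤ) ∣ b)
    (hsf : Squarefree (b ^ 2 - a ^ 2)) (hcrit : CritA a b) (hs : 0 < s) (ht : 0 < t)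
    (hst : Int.gcd s t = 1) (hu : 0 < u) (hv : 0 < v)
    (h1 : t ^ 2 + a ^ 2 * s ^ 2 = u ^ 2) (h2 : t ^ 2 + b ^ 2 * s ^ 2 = v ^ 2) :
    ∃ s' t' u' v' : ℤ, 0 < s' ∧ s' < s ∧ 0 < t' ∧ t' ^ 2 + a ^ 2 * s' ^ 2 = u' ^ 2 ∧
      t' ^ 2 + b ^ 2 * s' ^ 2 = v' ^ 2 := by
  by_cases hse : s % 2 = 0
  · obtain ⟨m, n, g, h, X, Y, hm, hn, hg, hh, hX, hY, k3, k4, k5, k6, k1, hsXY⟩ :=
      p1core a b s t u v ha0 hb0 hao h4b hsf hcrit hs hst hu hv hse h1 h2
    have ha2 : a * (X * Y) = m * n := by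
      have h3 : (a * s) ^ 2 = (2 * (m * n)) ^ 2 := by
        have : (a * s) ^ 2 = (u + t) * (u - t) := by linarith
        rw [this, k3, k4]; ring
      have h4 := (sq_eq_sq₀ (by positivity) (by positivity)).mp h3
      rw [hsXY] at h4
      linarith
    have hb2 : b * (X * Y) = g * h := by
      have h3 : (b * s) ^ 2 = (2 * (g * h)) ^ 2 := by
        have : (b * s) ^ 2 = (v + t) * (v - t) := by linarith
        rw [this, k5, k6]; ring
      have h4 := (sq_eq_sq₀ (by positivity) (by positivity)).mp h3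
      rw [hsXY] at h4
      linarith
    have hYgn : Y ^ 2 = g ^ 2 + n ^ 2 := by linarith
    have hYmh : Y ^ 2 = m ^ 2 + h ^ 2 := by linarith
    refine ⟨X * Y, m * g, m * Y, g * Y, by positivity, ?_, by positivity, ?_, ?_⟩
    · have : 0 < X * Y := by positivity
      linarith
    · have : a ^ 2 * (X * Y) ^ 2 = (m * n) ^ 2 := by rw [← ha2]; ring
      rw [this, mul_pow m Y, hYgn]; ring
    · have : b ^ 2 * (X * Y) ^ 2 = (g * h) ^ 2 := by rw [← hb2]; ring
      rw [this, mul_pow g Y, hYmh]; ring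
  · have hso : s % 2 = 1 := by omega
    have hs2 := sq_odd s hso
    have ht4 : t % 4 = 0 := by
      have ha2 := mul_odd_sq a s hao hs2
      have hu2 := sq_cases u
      have h3 : t % 2 = 1 ∨ t % 4 = 0 ∨ t % 4 = 2 := by omega
      rcases h3 with h3 | h3 | h3
      · have := sq_odd t h3
        omega
      · exact h3
      · have := sq_two t h3
        omega
    obtain ⟨P, Q, hP, hQ, hat, hbt, k5, k6, hsPQ⟩ :=
      p2core a b s t u v ha0 hb0 hao h4b h16 hsf hcrit hs ht hst hu hv hso ht4 h1 h2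
    have hcab : IsCoprime a b := by
      rw [Int.isCoprime_iff_gcd_eq_one]
      by_contra hne
      obtain ⟨p, hp1, d1, d2⟩ := prime_of_gcd hne
      exact sf_common hsf p hp1 d1 d2
    obtain ⟨t0, ht0⟩ : a * b ∣ t := hcab.mul_dvd hat hbt
    have ht00 : 0 < t0 := by
      rw [ht0] at ht; exact (mul_pos_iff_of_pos_left (by positivity)).mp ht
    -- `v = b v₀`, `u = a u₀`
    obtain ⟨v0, hv0⟩ : b ∣ v := by
      have : b ^ 2 ∣ v ^ 2 := ⟨a ^ 2 * t0 ^ 2 + s ^ 2, by rw [← h2, ht0]; ring⟩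
      exact (Int.pow_dvd_pow_iff (by norm_num)).mp this
    obtain ⟨u0, hu0⟩ : a ∣ u := by
      have : a ^ 2 ∣ u ^ 2 := ⟨b ^ 2 * t0 ^ 2 + s ^ 2, by rw [← h1, ht0]; ring⟩
      exact (Int.pow_dvd_pow_iff (by norm_num)).mp this
    have hv00 : 0 < v0 := by rw [hv0] at hv; exact (mul_pos_iff_of_pos_left hb0).mp hv
    have hu00 : 0 < u0 := by rw [hu0] at hu; exact (mul_pos_iff_of_pos_left ha0).mp hu
    have e1 : s ^ 2 + a ^ 2 * t0 ^ 2 = v0 ^ 2 := by
      have hb2 : b ^ 2 ≠ 0 := by positivity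
      apply mul_left_cancel₀ hb2
      rw [hv0, ht0] at h2
      linear_combination h2
    have e2 : s ^ 2 + b ^ 2 * t0 ^ 2 = u0 ^ 2 := by
      have ha2 : a ^ 2 ≠ 0 := by positivity
      apply mul_left_cancel₀ ha2
      rw [hu0, ht0] at h1
      linear_combination h1
    have ht0e : t0 % 2 = 0 := by
      by_contra hne
      have h3 : t0 % 2 = 1 := by omega
      have h4 := sq_odd t0 h3
      have h5 := mul_odd_sq a t0 hao h4
      have h6 := sq_cases v0
      omega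
    have hst0 : Int.gcd t0 s = 1 := by
      rw [← Int.isCoprime_iff_gcd_eq_one]
      have : IsCoprime s t := Int.isCoprime_iff_gcd_eq_one.mpr hst
      rw [ht0] at this
      exact this.of_mul_right_right.symm
    obtain ⟨m, n, g, h, X, Y, hm, hn, hg, hh, hX, hY, c3, c4, c5, c6, c1, hsXY⟩ :=
      p1core a b t0 s v0 u0 ha0 hb0 hao h4b hsf hcrit ht00 hst0 hv00 hu00 ht0e e1 e2
    have ha2 : a * (X * Y) = m * n := by
      have h3 : (a * t0) ^ 2 = (2 * (m * n)) ^ 2 := by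
        have : (a * t0) ^ 2 = (v0 + s) * (v0 - s) := by linarith
        rw [this, c3, c4]; ring
      have h4 := (sq_eq_sq₀ (by positivity) (by positivity)).mp h3
      rw [hsXY] at h4
      linarith
    have hb2 : b * (X * Y) = g * h := by
      have h3 : (b * t0) ^ 2 = (2 * (g * h)) ^ 2 := by
        have : (b * t0) ^ 2 = (u0 + s) * (u0 - s) := by linarith
        rw [this, c5, c6]; ring
      have h4 := (sq_eq_sq₀ (by positivity) (by positivity)).mp h3
      rw [hsXY] at h4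
      linarith
    have hYgn : Y ^ 2 = g ^ 2 + n ^ 2 := by linarith
    have hYmh : Y ^ 2 = m ^ 2 + h ^ 2 := by linarith
    have hkey : m ^ 2 * ((a * g) ^ 2 + b ^ 2 * n ^ 2) = (a * g * Y) ^ 2 := by
      have e3 : (m * n) ^ 2 = (a * (X * Y)) ^ 2 := by rw [ha2]
      have e4 : (b * (X * Y)) ^ 2 = (g * h) ^ 2 := by rw [hb2]
      calc m ^ 2 * ((a * g) ^ 2 + b ^ 2 * n ^ 2) = a ^ 2 * g ^ 2 * m ^ 2 + b ^ 2 * (m * n) ^ 2 := by
            ring
        _ = a ^ 2 * g ^ 2 * m ^ 2 + a ^ 2 * (b * (X * Y)) ^ 2 := by rw [e3]; ring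
        _ = a ^ 2 * g ^ 2 * (m ^ 2 + h ^ 2) := by rw [e4]; ring
        _ = (a * g * Y) ^ 2 := by rw [← hYmh]; ring
    obtain ⟨r, hr⟩ : m ∣ a * g * Y := by
      have : m ^ 2 ∣ (a * g * Y) ^ 2 := ⟨_, hkey.symm⟩
      exact (Int.pow_dvd_pow_iff (by norm_num)).mp this
    refine ⟨n, a * g, a * Y, r, hn, ?_, by positivity, ?_, ?_⟩
    · -- `n < s`
      have h3 : 2 * v0 = P ^ 2 + Q ^ 2 := by
        have h4 : b * (2 * v0) = b * (P ^ 2 + Q ^ 2) := by
          rw [hv0] at k5 k6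
          linear_combination k5 + k6
        exact mul_left_cancel₀ hb0.ne' h4
      have h5 : (2 * n) ^ 2 = (P - Q) ^ 2 := by
        have : 2 * n ^ 2 = v0 - s := c4.symm
        rw [hsPQ] at this
        linear_combination 2 * this + h3
      have h6 : P ≤ s := by rw [hsPQ]; nlinarith
      have h7 : Q ≤ s := by rw [hsPQ]; nlinarith
      rcases sq_eq_sq_iff_eq_or_eq_neg.mp h5 with h8 | h8 <;> omega
    · rw [mul_pow a Y, hYgn]; ring
    · have hm2 : m ^ 2 ≠ 0 := by positivity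
      apply mul_left_cancel₀ hm2
      rw [hkey, hr]; ring

end Pool.Agent.CUBE
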